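import Pool.Agent.Helper70.TW.Goals

/-!
Packet TW-QMAIN: quartic forms.
-/

namespace Pool.Agent.Helper37.TW

open MvPolynomial Pool.Agent.Helper70.BU Pool.Agent.Helper70.TW

universe u

/-- The balanced exponents. -/
def bal (a c g : ℕ) : Sc 2 → ℕ
  | none => g
  | some (Sum.inl k) => ![a, c] k
  | some (Sum.inr k) => ![a, c] k

/-- The norm `x star x`. -/
def nn {K : Type u} [Field K] (x : GF K) : K := x.re ^ 2 + x.im ^ 2

theorem mul_star_eq {K : Type u} [Field K] (x : GF K) :
    x * star x = algebraMap K (GF K) (nn x) := by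
  ext
  · rw [QuadraticAlgebra.algebraMap_re]
    simp [nn]
    ring
  · rw [QuadraticAlgebra.algebraMap_im]
    simp
    ring

theorem pow_mul_star {K : Type u} [Field K] (x : GF K) (a : ℕ) :
    x ^ a * star x ^ a = algebraMap K (GF K) (nn x ^ a) := by
  rw [← mul_pow, mul_star_eq, map_pow]

theorem nn_neg {K : Type u} [Field K] (x : GF K) : nn (-x) = nn x := by
  simp [nn]

theorem nn_zero {K : Type u} [Field K] : nn (0 : GF K) = 0 := by
  simp [nn]

theorem nn_ne {K : Type u} [Field K] (h1 : ∀ x : K, x ^ 2 ≠ -1) {x : GF K} (hx : x ≠ 0) :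
    nn x ≠ 0 := by
  intro h
  unfold nn at h
  by_cases hi : x.im = 0
  · rw [hi] at h
    have : x.re = 0 := by
      have : x.re ^ 2 = 0 := by linear_combination h
      exact pow_eq_zero_iff (two_ne_zero) |>.1 this
    apply hx
    ext <;> simp [hi, this]
  · apply h1 (x.re / x.im)
    field_simp
    linear_combination h

theorem prod_bal {K : Type u} [Field K] (l : Fin 2 → GF K) (a c g : ℕ) :
    ∏ k, (l k ^ bal a c g (some (Sum.inl k)) * star (l k) ^ bal a c g (some (Sum.inr k))) =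
      algebraMap K (GF K) (nn (l 0) ^ a * nn (l 1) ^ c) := by
  rw [Fin.prod_univ_two, map_mul, ← pow_mul_star, ← pow_mul_star]
  rfl

theorem swp_bal (a c g : ℕ) : swp (bal a c g) = bal a c g := by
  funext s
  rcases s with _ | (k | k) <;> rfl

theorem real_of_star {K : Type u} [Field K] [CharZero K] (x : GF K) (h : star x = x) :
    x = algebraMap K (GF K) x.re := by
  have h2 := congrArg QuadraticAlgebra.im h
  simp only [QuadraticAlgebra.im_star] at h2
  have : x.im = 0 := by
    have : (2 : K) * x.im = 0 := by linear_combination -h2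
    simpa using this
  ext <;> simp [this]

/-- The six balanced exponents of degree four. -/
def P6 : Finset (Sc 2 → ℕ) :=
  {bal 2 0 0, bal 1 1 0, bal 0 2 0, bal 1 0 2, bal 0 1 2, bal 0 0 4}

theorem sum_sc (m : Sc 2 → ℕ) : ∑ τ, m τ = m none + (m (some (Sum.inl 0)) + m (some (Sum.inl 1)) +
    (m (some (Sum.inr 0)) + m (some (Sum.inr 1)))) := by
  rw [Fintype.sum_option, Fintype.sum_sum_type, Fin.sum_univ_two, Fin.sum_univ_two]

theorem mem_P6 (m : Sc 2 → ℕ) (hm : ∑ τ, m τ = 4)
    (h0 : m (some (Sum.inl 0)) = m (some (Sum.inr 0)))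
    (h1 : m (some (Sum.inl 1)) = m (some (Sum.inr 1))) : m ∈ P6 := by
  rw [sum_sc] at hm
  have hb : m = bal (m (some (Sum.inl 0))) (m (some (Sum.inl 1))) (m none) := by
    funext s
    rcases s with _ | (k | k)
    · rfl
    · fin_cases k <;> rfl
    · fin_cases k
      · exact h0.symm
      · exact h1.symm
  generalize m (some (Sum.inl 0)) = a at *
  generalize m (some (Sum.inl 1)) = c at *
  generalize m none = g at *
  rw [← h0, ← h1] at hm
  rw [hb]
  have : (a = 2 ∧ c = 0 ∧ g = 0) ∨ (a = 1 ∧ c = 1 ∧ g = 0) ∨ (a = 0 ∧ c = 2 ∧ g = 0) ∨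
    (a = 1 ∧ c = 0 ∧ g = 2) ∨ (a = 0 ∧ c = 1 ∧ g = 2) ∨ (a = 0 ∧ c = 0 ∧ g = 4) := by omega
  rcases this with ⟨rfl, rfl, rfl⟩ | ⟨rfl, rfl, rfl⟩ | ⟨rfl, rfl, rfl⟩ | ⟨rfl, rfl, rfl⟩ |
    ⟨rfl, rfl, rfl⟩ | ⟨rfl, rfl, rfl⟩ <;> simp [P6]

theorem P6_sub : P6 ⊆ Finset.piAntidiag (Finset.univ : Finset (Sc 2)) 4 := by
  intro m hm
  rw [Finset.mem_piAntidiag]
  refine ⟨?_, fun i _ => Finset.mem_univ i⟩
  change ∑ τ, m τ = 4
  rw [sum_sc]
  simp only [P6, Finset.mem_insert, Finset.mem_singleton] at hm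
  rcases hm with rfl | rfl | rfl | rfl | rfl | rfl <;> rfl

theorem sum_P6 {M : Type u} [AddCommMonoid M] (T : (Sc 2 → ℕ) → M) :
    ∑ m ∈ P6, T m = T (bal 2 0 0) + (T (bal 1 1 0) + (T (bal 0 2 0) + (T (bal 1 0 2) +
      (T (bal 0 1 2) + T (bal 0 0 4))))) := by
  unfold P6
  rw [Finset.sum_insert (by decide), Finset.sum_insert (by decide), Finset.sum_insert (by decide),
    Finset.sum_insert (by decide), Finset.sum_insert (by decide), Finset.sum_singleton]

/-- An unbalanced exponent, with the pair in the normalisation of `Q4`, gives an element of `Q4`. -/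
theorem exists_Q4 (m : Sc 2 → ℕ) (hm : ∑ τ, m τ = 4)
    (h : m (some (Sum.inr 0)) < m (some (Sum.inl 0)) ∨
      (m (some (Sum.inl 0)) = m (some (Sum.inr 0)) ∧
        m (some (Sum.inr 1)) < m (some (Sum.inl 1)))) :
    ∃ q : Q4, (fun τ => ((q.1 τ : Fin 5) : ℕ)) = m := by
  have hle : ∀ τ, m τ < 5 := by
    intro τ
    have : m τ ≤ ∑ τ, m τ := Finset.single_le_sum (fun _ _ => Nat.zero_le _) (Finset.mem_univ τ)
    omega
  refine ⟨⟨fun τ => ⟨m τ, hle τ⟩, hm, ?_⟩, rfl⟩
  rcases h with h | ⟨h, h'⟩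
  · exact Or.inl h
  · right
    exact ⟨Fin.ext h, h'⟩

theorem key {K : Type u} [Field K] [CharZero K] (hQH : QH.{u}) (hQS : QS.{u}) (hQE : QE.{u})
    (n : ℕ) (v : Fin n → K) (hMB : MB K (Prod.snd : Fin n × Fin 2 → Fin 2) q4a q4b)
    (f : MvPolynomial (Fin n) K) (hf : f.IsHomogeneous 4) :
    ∃ z : Fin n × Fin 2 → GF K, (∀ k, ∃ i, z (i, k) ≠ 0) ∧
      ∃ g : ℕ → ℕ → ℕ → K, ∀ (l : Fin 2 → GF K) (μ : K),
        eval (vec v z l μ) f = g 2 0 0 * nn (l 0) ^ 2 + (g 1 1 0 * (nn (l 0) * nn (l 1)) +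
          (g 0 2 0 * nn (l 1) ^ 2 + (g 1 0 2 * (nn (l 0) * μ ^ 2) +
          (g 0 1 2 * (nn (l 1) * μ ^ 2) + g 0 0 4 * μ ^ 4)))) := by
  obtain ⟨z, hz, hz0⟩ := hMB (fun m : Q4 => cf 2 v f (fun τ => ((m.1 τ : Fin 5) : ℕ)))
    (fun m => hQH K n 2 v f _)
  refine ⟨z, ?_, fun a c g => (evs z (cf 2 v f (bal a c g))).re, ?_⟩
  · intro k
    obtain ⟨⟨i, k'⟩, hk, hi⟩ := hz k
    simp only at hk
    subst hk
    exact ⟨i, hi⟩
  intro l μ
  have hvan : ∀ m : Sc 2 → ℕ, ∑ τ, m τ = 4 → m ∉ P6 → evs z (cf 2 v f m) = 0 := by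
    intro m hm hmP
    by_cases hA : m (some (Sum.inr 0)) < m (some (Sum.inl 0)) ∨
      (m (some (Sum.inl 0)) = m (some (Sum.inr 0)) ∧
        m (some (Sum.inr 1)) < m (some (Sum.inl 1)))
    · obtain ⟨q, hq⟩ := exists_Q4 m hm hA
      rw [← hq]
      exact hz0 q
    · have hm' : ∑ τ, swp m τ = 4 := by
        rw [sum_sc] at hm ⊢
        simp only [swp]
        omega
      have hB : swp m (some (Sum.inr 0)) < swp m (some (Sum.inl 0)) ∨
          (swp m (some (Sum.inl 0)) = swp m (some (Sum.inr 0)) ∧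
          swp m (some (Sum.inr 1)) < swp m (some (Sum.inl 1))) := by
        by_contra hB
        apply hmP
        simp only [swp] at hB
        apply mem_P6 m hm <;> omega
      obtain ⟨q, hq⟩ := exists_Q4 (swp m) hm' hB
      have h1 : evs z (cf 2 v f (swp m)) = 0 := by
        rw [← hq]
        exact hz0 q
      rw [← hQS K n 2 v f m z] at h1
      exact star_eq_zero.1 h1
  have hre : ∀ a c g : ℕ, evs z (cf 2 v f (bal a c g)) =
      algebraMap K (GF K) (evs z (cf 2 v f (bal a c g))).re := by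
    intro a c g
    apply real_of_star
    rw [hQS K n 2 v f, swp_bal]
  have hE := hQE K n 2 4 v f hf z l μ
  rw [← Finset.sum_subset P6_sub] at hE
  · rw [sum_P6] at hE
    apply QuadraticAlgebra.algebraMap_injective (a := (-1 : K)) (b := 0)
    rw [hE]
    simp only [prod_bal]
    rw [hre 2 0 0, hre 1 1 0, hre 0 2 0, hre 1 0 2, hre 0 1 2, hre 0 0 4]
    simp only [← map_mul, ← map_pow, ← map_add, QuadraticAlgebra.algebraMap_re]
    congr 1
    simp only [bal]
    ring
  · intro m hm hmP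
    rw [Finset.mem_piAntidiag] at hm
    rw [hvan m hm.1 hmP]
    simp

theorem vec_neg {K : Type u} [Field K] {n p : ℕ} (v : Fin n → K) (z : Fin n × Fin p → GF K)
    (l : Fin p → GF K) (μ : K) (k : Fin p) :
    vec v z (Function.update (fun j => - l j) k (l k)) (-μ) =
      (2 : K) • vec v z (Function.update (fun _ => 0) k (l k)) 0 - vec v z l μ := by
  funext i
  simp only [vec, Pi.sub_apply, Pi.smul_apply, smul_eq_mul]
  rw [← Finset.add_sum_erase _ _ (Finset.mem_univ k), ← Finset.add_sum_erase _ _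
    (Finset.mem_univ k), ← Finset.add_sum_erase _ _ (Finset.mem_univ k)]
  have h1 : ∑ x ∈ Finset.univ.erase k,
      2 * (Function.update (fun j => - l j) k (l k) x * z (i, x)).re =
      - ∑ x ∈ Finset.univ.erase k, 2 * (l x * z (i, x)).re := by
    rw [← Finset.sum_neg_distrib]
    apply Finset.sum_congr rfl
    intro x hx
    rw [Function.update_of_ne (Finset.ne_of_mem_erase hx)]
    rw [neg_mul, QuadraticAlgebra.re_neg]
    ring
  have h2 : ∑ x ∈ Finset.univ.erase k,
      2 * (Function.update (fun _ => (0 : GF K)) k (l k) x * z (i, x)).re = 0 := by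
    apply Finset.sum_eq_zero
    intro x hx
    rw [Function.update_of_ne (Finset.ne_of_mem_erase hx)]
    simp
  rw [h1, h2, Function.update_self, Function.update_self]
  ring

theorem vec_single {K : Type u} [Field K] {n p : ℕ} (v : Fin n → K) (z : Fin n × Fin p → GF K)
    (x : GF K) (k : Fin p) (i : Fin n) :
    vec v z (Function.update (fun _ => 0) k x) 0 i = 2 * (x * z (i, k)).re := by
  simp only [vec]
  rw [← Finset.add_sum_erase _ _ (Finset.mem_univ k)]
  have h2 : ∑ j ∈ Finset.univ.erase k,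
      2 * (Function.update (fun _ => (0 : GF K)) k x j * z (i, j)).re = 0 := by
    apply Finset.sum_eq_zero
    intro j hj
    rw [Function.update_of_ne (Finset.ne_of_mem_erase hj)]
    simp
  rw [h2, Function.update_self]
  ring

theorem exists_ne {K : Type u} [Field K] [CharZero K] {n p : ℕ} (v : Fin n → K)
    (z : Fin n × Fin p → GF K) (k : Fin p) (hk : ∃ i, z (i, k) ≠ 0) :
    ∃ x : GF K, vec v z (Function.update (fun _ => 0) k x) 0 ≠ 0 := by
  obtain ⟨i, hi⟩ := hk
  by_contra hcon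
  push Not at hcon
  have h1 := congrFun (hcon ⟨1, 0⟩) i
  have h2 := congrFun (hcon ⟨0, 1⟩) i
  rw [vec_single] at h1 h2
  simp only [QuadraticAlgebra.re_mul, Pi.zero_apply] at h1 h2
  apply hi
  have e1 : (z (i, k)).re = 0 := by
    have : (2 : K) * (z (i, k)).re = 0 := by linear_combination h1
    simpa using this
  have e2 : (z (i, k)).im = 0 := by
    have : (2 : K) * (z (i, k)).im = 0 := by linear_combination -h2
    simpa using this
  ext
  · exact e1
  · exact e2

theorem eval_smul {K : Type u} [Field K] {n d : ℕ} (f : MvPolynomial (Fin n) K)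
    (hf : f.IsHomogeneous d) (c : K) (x : Fin n → K) :
    eval (c • x) f = c ^ d * eval x f := by
  simp only [eval_eq]
  rw [Finset.mul_sum]
  apply Finset.sum_congr rfl
  intro m hm
  have hd := hf (mem_support_iff.1 hm)
  simp only [Pi.smul_apply, smul_eq_mul, mul_pow]
  rw [Finset.prod_mul_distrib, Finset.prod_pow_eq_pow_sum]
  have : ∑ i ∈ m.support, m i = d := by
    rw [← hd]
    simp [Finsupp.weight_apply, Finsupp.sum]
  rw [this]
  ring

theorem qmain (hQH : QH.{u}) (hQS : QS.{u}) (hQE : QE.{u}) : QMAIN.{u} := by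
  intro K _ _ h1 h2 h3 n hn hMB f hf
  classical
  obtain ⟨i0⟩ : Nonempty (Fin n) := ⟨⟨0, hn⟩⟩
  set v : Fin n → K := Pi.single i0 1 with hv
  have hv0 : v ≠ 0 := by
    intro h
    have := congrFun h i0
    simp [hv] at this
  obtain ⟨z, hz, g, hg⟩ := key hQH hQS hQE n v hMB f hf
  obtain ⟨q, hq0, hq⟩ := h3 (fun i j =>
    ![![g 2 0 0, g 1 1 0, g 1 0 2], ![0, g 0 2 0, g 0 1 2], ![0, 0, g 0 0 4]] i j)
  simp only [Fin.sum_univ_three] at hq
  simp at hq
  obtain ⟨ν, μ, hν, hμ, hμ0⟩ : ∃ ν μ : K, ν ≠ 0 ∧ μ ^ 2 = ν * q 2 ∧ (μ = 0 → q 2 = 0) := by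
    by_cases hq2 : q 2 = 0
    · exact ⟨1, 0, one_ne_zero, by simp [hq2], fun _ => hq2⟩
    · exact ⟨q 2, q 2, hq2, by ring, fun h => h⟩
  obtain ⟨x0, y0, h0⟩ := h2 (ν * q 0)
  obtain ⟨x1, y1, h1'⟩ := h2 (ν * q 1)
  set l : Fin 2 → GF K := ![⟨x0, y0⟩, ⟨x1, y1⟩] with hl
  have hn0 : nn (l 0) = ν * q 0 := by simp [hl, nn, h0]
  have hn1 : nn (l 1) = ν * q 1 := by simp [hl, nn, h1']
  have hF : eval (vec v z l μ) f = 0 := by
    rw [hg l μ, hn0, hn1, hμ, show μ ^ 4 = (μ ^ 2) ^ 2 by ring, hμ]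
    linear_combination ν ^ 2 * hq
  by_cases hx : vec v z l μ = 0
  swap
  · exact ⟨_, hx, hF⟩
  have hlk : ∃ k, l k ≠ 0 := by
    by_contra hcon
    push Not at hcon
    have hq00 : q 0 = 0 := by
      have := hn0
      rw [hcon 0, nn_zero] at this
      rcases mul_eq_zero.1 this.symm with h | h
      · exact absurd h hν
      · exact h
    have hq10 : q 1 = 0 := by
      have := hn1
      rw [hcon 1, nn_zero] at this
      rcases mul_eq_zero.1 this.symm with h | h
      · exact absurd h hν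
      · exact h
    have hμne : μ ≠ 0 := by
      intro h
      apply hq0
      funext i
      fin_cases i
      · exact hq00
      · exact hq10
      · exact hμ0 h
    apply hv0
    funext i
    have := congrFun hx i
    simp only [vec, hcon] at this
    simp only [zero_mul, QuadraticAlgebra.re_zero, mul_zero, Finset.sum_const_zero, zero_add,
      Pi.zero_apply] at this
    rcases mul_eq_zero.1 this with h | h
    · exact absurd h hμne
    · exact h
  obtain ⟨k, hk⟩ := hlk
  set y := vec v z (Function.update (fun _ => 0) k (l k)) 0 with hy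
  have hy2 : eval ((2 : K) • y) f = 0 := by
    have e := vec_neg v z l μ k
    rw [hx, sub_zero] at e
    rw [hy, ← e, hg]
    have en : ∀ j, nn (Function.update (fun j => - l j) k (l k) j) = nn (l j) := by
      intro j
      by_cases hj : j = k
      · subst hj
        rw [Function.update_self]
      · rw [Function.update_of_ne hj, nn_neg]
    rw [en, en, neg_pow μ 2, neg_pow μ 4]
    rw [← hF, hg]
    ring
  have hy1 : eval y f = 0 := by
    rw [eval_smul f hf] at hy2
    rcases mul_eq_zero.1 hy2 with h | h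
    · exact absurd h (pow_ne_zero _ two_ne_zero)
    · exact h
  by_cases hy0 : y = 0
  swap
  · exact ⟨y, hy0, hy1⟩
  obtain ⟨x, hxne⟩ := exists_ne v z k (hz k)
  refine ⟨_, hxne, ?_⟩
  have hnk := nn_ne h1 hk
  rw [hy, hg] at hy1
  rw [hg]
  fin_cases k
  · simp [nn_zero] at hy1 ⊢
    left
    rcases hy1 with h | h
    · exact h
    · exact absurd h hnk
  · simp [nn_zero] at hy1 ⊢
    left
    rcases hy1 with h | h
    · exact h
    · exact absurd h hnk

end Pool.Agent.Helper37.TW
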